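import Mathlib
import Pool.Agent.L0h78.Fan

/-!
# The strong countable fan tightness game on `C_p(X)`: all forcings preserve winning strategies

Let `σ` be a winning strategy of II at `y` in the ground model. If `t` is a finite sequence of legal
moves of the ground model and `A` is a legal move in the extension, then there is a legal move `B`
of the ground model with `σ(t, B) ∈ A`: otherwise `A` is contained in the set `Y` of the points
that are not of the form `σ(t, B)`, so `Y` is a legal move of the ground model and
`σ(t, Y) ∈ Y`, a contradiction. So II can simulate in the extension the game of the ground model.
If the answers avoid a ground model neighbourhood `U` of `y`, then decreasing conditions that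
decide more and more of the simulated play give in the ground model a play with all answers
outside of `U`, a contradiction.

The definitions are in `Pool.Agent.L0h78.Fan` (the game) and `Pool.Agent.Helper669.Forcing` (the
forcing relation).
-/

namespace Pool.Agent.Results.MP_abf503_lc.AllForcings

open Pool.Agent.Helper669.Forcing
open Pool.Agent.L0h78.Fan

universe u v

/-- The real-valued continuous functions on `X`. -/
def Cp (X : Type v) [TopologicalSpace X] : Type v := {f : X → ℝ // Continuous f}

/-- The topology of pointwise convergence, induced by the product topology of `X → ℝ`. -/
instance (X : Type v) [TopologicalSpace X] : TopologicalSpace (Cp X) :=
  inferInstanceAs (TopologicalSpace {f : X → ℝ // Continuous f})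

/-- Let `P` be an arbitrary notion of forcing.
(1) If II has a winning strategy in the strong countable fan tightness game at a point `y` of a
topological space `Y`, then all conditions of `P` force that II has a winning strategy at `y` in
the game on the set `Y` with the topology generated by the ground model topology.
(2) If `X` is a topological space such that II has a winning strategy at every point of
`C_p(X)`, then all conditions of `P` force that II has one at every point of the ground model
set `C_p(X)` with the topology generated by the ground model topology. -/
theorem result (P : Type u) [Preorder P] :
    (∀ (Y : Type v) [TopologicalSpace Y] (y : Y), IIWins y → ∀ p : P, p ∈ fIIWins (P := P) y) ∧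
    ∀ (X : Type v) [TopologicalSpace X], (∀ f : Cp X, IIWins f) →
      ∀ p : P, p ∈ fall fun f : Cp X => fIIWins (P := P) f :=
  ⟨fun _ _ _ h p => wins h p, fun _ _ h p f => wins (h f) p⟩

end Pool.Agent.Results.MP_abf503_lc.AllForcings
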